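import Mathlib

set_option autoImplicit false

namespace Pool.Agent.Results.MP_923311_co.Full

/-- A permutation of length `n`, as a word in the letters `0, …, n-1`. -/
def IsPerm (p : List ℕ) : Prop := p.Perm (List.range p.length)

/-- Pattern containment: some subsequence of `q` is in the same relative order as `p`. -/
def Le (p q : List ℕ) : Prop := ∃ s ∈ q.sublists, s.length = p.length ∧
  ∀ i < p.length, ∀ j < p.length, (p.getD i 0 < p.getD j 0 ↔ s.getD i 0 < s.getD j 0)

instance : DecidableRel Le := fun _ _ => by unfold Le; infer_instance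

/-- The permutations `t` with `s ≤ t < p` (a permutation `t ≤ p` differs from `p` iff shorter). -/
def Below (s p : List ℕ) : Finset (List ℕ) :=
  (((List.range p.length).flatMap fun k => (List.range k).permutations').filter
    fun t => Le s t ∧ Le t p).toFinset

lemma mem_Below {s p t : List ℕ} :
    t ∈ Below s p ↔ IsPerm t ∧ t.length < p.length ∧ Le s t ∧ Le t p := by
  simp only [Below, List.mem_toFinset, List.mem_filter, List.mem_flatMap, List.mem_range,
    List.mem_permutations', decide_eq_true_eq, IsPerm]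
  refine ⟨fun ⟨⟨k, a, b⟩, c⟩ => ?_, fun ⟨a, b, c⟩ => ⟨⟨_, b, a⟩, c⟩⟩
  obtain rfl : t.length = k := by simpa using b.length_eq
  exact ⟨b, a, c⟩

/-- The Möbius function of the pattern poset. -/
def mu (s p : List ℕ) : ℤ := if s = p then 1 else -∑ t ∈ (Below s p).attach, mu s t
termination_by p.length
decreasing_by exact (mem_Below.1 t.2).2.1

/-- Faces of `Γ(s,p)`: chains of the open interval on which `μ(s, ·)` vanishes. -/
def Face (s p : List ℕ) (C : Finset (List ℕ)) : Prop :=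
  (∀ t ∈ C, IsPerm t ∧ Le s t ∧ Le t p ∧ t ≠ s ∧ t ≠ p ∧ mu s t = 0) ∧
    ∀ t ∈ C, ∀ u ∈ C, Le t u ∨ Le u t

lemma mu_eq {p : List ℕ} (l : List (List ℕ)) (h : [0] ≠ p ∧ l.Nodup ∧ Below [0] p = l.toFinset) :
    mu [0] p = -(l.map (mu [0])).sum := by
  rw [mu, if_neg h.1, Finset.sum_attach, h.2.2, List.sum_toFinset _ h.2.1]

theorem result : ∃ s p : List ℕ, IsPerm s ∧ IsPerm p ∧ Le s p ∧ ∃ C D : Finset (List ℕ),
    Maximal (Face s p) C ∧ Maximal (Face s p) D ∧ C.card ≠ D.card := by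
  have m0 : mu [0] [0] = 1 := by rw [mu]; rfl
  have m1 := mu_eq (p := [0, 1]) [[0]] (by decide +kernel)
  have m2 := mu_eq (p := [1, 0]) [[0]] (by decide +kernel)
  have m3 := mu_eq (p := [0, 1, 2]) [[0], [0, 1]] (by decide +kernel)
  have m4 := mu_eq (p := [2, 1, 0]) [[0], [1, 0]] (by decide +kernel)
  have m5 := mu_eq (p := [0, 2, 1]) [[0], [0, 1], [1, 0]] (by decide +kernel)
  have m6 := mu_eq (p := [1, 0, 2]) [[0], [0, 1], [1, 0]] (by decide +kernel)
  have m7 := mu_eq (p := [0, 3, 2, 1]) [[0], [0, 1], [1, 0], [0, 2, 1], [2, 1, 0]]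
    (by decide +kernel)
  have m8 := mu_eq (p := [0, 2, 1, 3]) [[0], [0, 1], [1, 0], [0, 1, 2], [0, 2, 1], [1, 0, 2]]
    (by decide +kernel)
  simp only [List.map_cons, List.map_nil, List.sum_cons, List.sum_nil] at m1 m2 m3 m4 m5 m6 m7 m8
  have key : ∀ t, IsPerm t ∧ Le [0] t ∧ Le t [0, 3, 2, 1, 4] ∧ t ≠ [0] ∧ t ≠ [0, 3, 2, 1, 4] ∧
      mu [0] t = 0 → t ∈ [[0, 1, 2], [2, 1, 0], [0, 3, 2, 1], [2, 1, 0, 3]] := by
    rintro t ⟨a, b, c, d, e, f⟩
    have l : t.length < 6 := by
      obtain ⟨s, x, y, -⟩ := c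
      have := (List.mem_sublists.1 x).length_le
      simp at this; omega
    have := (by decide +kernel : ∀ k < 6, ∀ t ∈ (List.range k).permutations', Le [0] t →
      Le t [0, 3, 2, 1, 4] → t ∈ [[0], [0, 1], [1, 0], [0, 1, 2], [0, 2, 1], [1, 0, 2], [2, 1, 0],
        [0, 3, 2, 1], [0, 2, 1, 3], [2, 1, 0, 3], [0, 3, 2, 1, 4]]) _ l t
      (List.mem_permutations'.2 a) b c
    simp only [List.mem_cons, List.not_mem_nil, or_false] at this
    rcases this with rfl | rfl | rfl | rfl | rfl | rfl | rfl | rfl | rfl | rfl | rfl <;>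
      first | omega | decide | exact absurd rfl d | exact absurd rfl e
  have mx : ∀ C : Finset (List ℕ), Face [0] [0, 3, 2, 1, 4] C →
      (∀ t ∈ [[0, 1, 2], [2, 1, 0], [0, 3, 2, 1], [2, 1, 0, 3]], (∀ u ∈ C, Le t u ∨ Le u t) → t ∈ C) →
      Maximal (Face [0] [0, 3, 2, 1, 4]) C := fun C a b =>
    ⟨a, fun D c d t ht => b t (key t (c.1 t ht)) fun u hu => c.2 t ht u (d hu)⟩
  refine ⟨[0], [0, 3, 2, 1, 4], by unfold IsPerm; decide, by unfold IsPerm; decide,
    by decide +kernel, {[0, 1, 2]}, {[2, 1, 0], [0, 3, 2, 1]},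
    mx _ ⟨?_, by decide +kernel⟩ (by decide +kernel),
    mx _ ⟨?_, by decide +kernel⟩ (by decide +kernel), by decide⟩
  all_goals
    simp only [Finset.mem_insert, Finset.mem_singleton, forall_eq_or_imp, forall_eq, IsPerm]
    and_intros
  all_goals first | omega | decide +kernel

end Pool.Agent.Results.MP_923311_co.Full
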